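import Pool.Agent.W28.Slip.Up

/-! The lower bound in the counterexample to the slippery conjecture: two piecewise linear
homeomorphisms. -/

set_option autoImplicit false

namespace Pool.Agent.W28.Slip

open CircleDeg1Lift

/-- piecewise linear interpolation of a sequence -/
noncomputable def G (v : ℤ → ℝ) (t : ℝ) : ℝ := v ⌊t⌋ + Int.fract t * (v (⌊t⌋ + 1) - v ⌊t⌋)

theorem G_int (v : ℤ → ℝ) (j : ℤ) : G v j = v j := by simp [G]

theorem le_G (v : ℤ → ℝ) (hv : StrictMono v) (t : ℝ) : v ⌊t⌋ ≤ G v t := by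
  have h1 := Int.fract_nonneg t
  have h2 : v ⌊t⌋ < v (⌊t⌋ + 1) := hv (by omega)
  unfold G
  nlinarith

theorem G_lt (v : ℤ → ℝ) (hv : StrictMono v) (t : ℝ) : G v t < v (⌊t⌋ + 1) := by
  have h1 := Int.fract_lt_one t
  have h2 : v ⌊t⌋ < v (⌊t⌋ + 1) := hv (by omega)
  unfold G
  nlinarith

theorem G_strictMono (v : ℤ → ℝ) (hv : StrictMono v) : StrictMono (G v) := by
  intro s t hst
  have hf : ⌊s⌋ ≤ ⌊t⌋ := Int.floor_mono hst.le
  rcases hf.eq_or_lt with h | h
  · have h1 : Int.fract s < Int.fract t := by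
      unfold Int.fract; rw [h]; linarith
    have h2 : v ⌊t⌋ < v (⌊t⌋ + 1) := hv (by omega)
    unfold G
    rw [h]
    nlinarith
  · calc G v s < v (⌊s⌋ + 1) := G_lt v hv s
      _ ≤ v ⌊t⌋ := hv.monotone (by omega)
      _ ≤ G v t := le_G v hv t

theorem per_int (v : ℤ → ℝ) (hp : ∀ j, v (j + 18) = v j + 1) (n : ℤ) : v (18 * n) = v 0 + n := by
  induction n using Int.induction_on with
  | zero => simp
  | succ i ih =>
    have : (18 : ℤ) * ((i : ℤ) + 1) = 18 * i + 18 := by ring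
    rw [this, hp, ih]; push_cast; ring
  | pred i ih =>
    have := hp (18 * (-(i : ℤ) - 1))
    have e : (18 : ℤ) * (-(i : ℤ) - 1) + 18 = 18 * (-(i : ℤ)) := by ring
    rw [e, ih] at this
    push_cast at this ⊢
    linarith

theorem G_surj (v : ℤ → ℝ) (hv : StrictMono v) (hp : ∀ j, v (j + 18) = v j + 1) :
    Function.Surjective (G v) := by
  intro y
  have hex : ∃ j, v j ≤ y := ⟨18 * ⌊y - v 0⌋, by
    rw [per_int v hp]; have := Int.floor_le (y - v 0); linarith⟩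
  have hbd : ∃ b : ℤ, ∀ z, v z ≤ y → z ≤ b := by
    refine ⟨18 * (⌊y - v 0⌋ + 1), fun z hz => ?_⟩
    by_contra hc
    push Not at hc
    have h1 := hv hc
    rw [per_int v hp] at h1
    have := Int.lt_floor_add_one (y - v 0)
    push_cast at h1
    linarith
  obtain ⟨j, hj1, hj2⟩ := Int.exists_greatest_of_bdd hbd hex
  have hj3 : y < v (j + 1) := by
    by_contra hc
    push Not at hc
    have := hj2 _ hc
    omega
  have hlt : v j < v (j + 1) := hv (by omega)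
  set t : ℝ := (y - v j) / (v (j + 1) - v j) with ht
  have ht0 : 0 ≤ t := div_nonneg (by linarith) (by linarith)
  have ht1 : t < 1 := by rw [ht, div_lt_one (by linarith)]; linarith
  refine ⟨(j : ℝ) + t, ?_⟩
  have hfl : ⌊(j : ℝ) + t⌋ = j := by
    rw [Int.floor_intCast_add, Int.floor_eq_zero_iff.2 ⟨ht0, ht1⟩, add_zero]
  have hfr : Int.fract ((j : ℝ) + t) = t := by
    unfold Int.fract; rw [hfl]; ring
  unfold G
  rw [hfl, hfr, ht]
  have hne : v (j + 1) - v j ≠ 0 := (sub_pos.2 hlt).ne'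
  rw [div_mul_cancel₀ _ hne]
  ring

/-- the piecewise linear homeomorphism with `j/18 ↦ v j` -/
noncomputable def lft (v : ℤ → ℝ) (hv : StrictMono v) (hp : ∀ j, v (j + 18) = v j + 1) :
    CircleDeg1Lift where
  toFun x := G v (18 * x)
  monotone' := fun x y h => (G_strictMono v hv).monotone (by linarith)
  map_add_one' x := by
    have e : (18 : ℝ) * (x + 1) = 18 * x + ((18 : ℤ) : ℝ) := by push_cast; ring
    have h1 : ⌊18 * x + ((18 : ℤ) : ℝ)⌋ = ⌊18 * x⌋ + 18 := Int.floor_add_intCast _ _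
    have h2 : Int.fract (18 * x + ((18 : ℤ) : ℝ)) = Int.fract (18 * x) := Int.fract_add_intCast _ _
    have h3 : v (⌊18 * x⌋ + 18 + 1) = v (⌊18 * x⌋ + 1) + 1 := by
      rw [← hp]; congr 1; ring
    show G v (18 * (x + 1)) = G v (18 * x) + 1
    rw [e]
    unfold G
    rw [h1, h2, h3, hp]
    ring

theorem lft_apply (v : ℤ → ℝ) (hv : StrictMono v) (hp : ∀ j, v (j + 18) = v j + 1) (x : ℝ) :
    lft v hv hp x = G v (18 * x) := rfl

theorem lft_isUnit (v : ℤ → ℝ) (hv : StrictMono v) (hp : ∀ j, v (j + 18) = v j + 1) :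
    IsUnit (lft v hv hp) := by
  rw [isUnit_iff_bijective]
  constructor
  · intro x y hxy
    have := (G_strictMono v hv).injective hxy
    linarith
  · intro y
    obtain ⟨t, ht⟩ := G_surj v hv hp y
    exact ⟨t / 18, by rw [lft_apply, ← ht]; congr 1; ring⟩

theorem lft_grid (v : ℤ → ℝ) (hv : StrictMono v) (hp : ∀ j, v (j + 18) = v j + 1) (j : ℤ) :
    lft v hv hp ((j : ℝ) / 18) = v j := by
  rw [lft_apply, ← G_int v j]; congr 1; ring

/-- integer table -/
def tab (T : List ℤ) (c : ℤ) (j : ℤ) : ℤ := 18 * c * (j / 18) + T.getD (j % 18).toNat 0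

theorem tab_per (T : List ℤ) (c j : ℤ) : tab T c (j + 18) = tab T c j + 18 * c := by
  unfold tab
  have h1 : (j + 18) / 18 = j / 18 + 1 := by omega
  have h2 : (j + 18) % 18 = j % 18 := by omega
  rw [h1, h2]; ring

theorem tab_strictMono (T : List ℤ) (c : ℤ)
    (h : ∀ r < 17, T.getD r 0 < T.getD (r + 1) 0) (h' : T.getD 17 0 < T.getD 0 0 + 18 * c) :
    StrictMono (tab T c) := by
  apply strictMono_int_of_lt_succ
  intro j
  unfold tab
  by_cases hr : j % 18 = 17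
  · have h1 : (j + 1) / 18 = j / 18 + 1 := by omega
    have h2 : (j + 1) % 18 = 0 := by omega
    rw [h1, h2, hr]
    simp only [Int.toNat_zero]
    have : (17 : ℤ).toNat = 17 := rfl
    rw [this]
    linarith
  · have h1 : (j + 1) / 18 = j / 18 := by omega
    have h2 : ((j + 1) % 18).toNat = (j % 18).toNat + 1 := by omega
    have h3 : (j % 18).toNat < 17 := by omega
    rw [h1, h2]
    have := h _ h3
    linarith

noncomputable def vt (T : List ℤ) (c : ℤ) (j : ℤ) : ℝ := (tab T c j : ℝ) / (18 * c)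

theorem vt_strictMono (T : List ℤ) (c : ℤ) (hc : 0 < c)
    (h : ∀ r < 17, T.getD r 0 < T.getD (r + 1) 0) (h' : T.getD 17 0 < T.getD 0 0 + 18 * c) :
    StrictMono (vt T c) := by
  intro i j hij
  unfold vt
  have := tab_strictMono T c h h' hij
  have hc' : (0 : ℝ) < 18 * c := by exact_mod_cast (by positivity : 0 < 18 * c)
  apply div_lt_div_of_pos_right _ hc'
  exact_mod_cast this

theorem vt_per (T : List ℤ) (c : ℤ) (hc : 0 < c) (j : ℤ) : vt T c (j + 18) = vt T c j + 1 := by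
  unfold vt
  have hc' : (0 : ℝ) < 18 * c := by exact_mod_cast (by positivity : 0 < 18 * c)
  rw [tab_per]
  push_cast
  field_simp

/-- lower bound for the action on the grid -/
def low (T : List ℤ) (c : ℤ) (z : ℤ) : ℤ := tab T c z / c

theorem lft_low (T : List ℤ) (c : ℤ) (hc : 0 < c)
    (h : ∀ r < 17, T.getD r 0 < T.getD (r + 1) 0) (h' : T.getD 17 0 < T.getD 0 0 + 18 * c)
    (z : ℤ) (x : ℝ) (hx : (z : ℝ) / 18 ≤ x) :
    ((low T c z : ℤ) : ℝ) / 18 ≤
      lft (vt T c) (vt_strictMono T c hc h h') (vt_per T c hc) x := by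
  have h1 := (lft (vt T c) (vt_strictMono T c hc h h') (vt_per T c hc)).monotone hx
  rw [lft_grid] at h1
  refine le_trans ?_ h1
  unfold vt low
  have hc' : (0 : ℝ) < c := by exact_mod_cast hc
  have h2 : tab T c z / c * c ≤ tab T c z := Int.ediv_mul_le _ hc.ne'
  have h3 : ((tab T c z / c : ℤ) : ℝ) * c ≤ tab T c z := by exact_mod_cast h2
  rw [div_le_div_iff₀ (by norm_num) (by positivity)]
  nlinarith

theorem pow_low (f : CircleDeg1Lift) (lo : ℤ → ℤ)
    (h : ∀ (z : ℤ) (x : ℝ), (z : ℝ) / 18 ≤ x → ((lo z : ℤ) : ℝ) / 18 ≤ f x) (n : ℕ)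
    (z : ℤ) (x : ℝ) (hx : (z : ℝ) / 18 ≤ x) : ((lo^[n] z : ℤ) : ℝ) / 18 ≤ (f ^ n) x := by
  induction n generalizing z x with
  | zero => simpa using hx
  | succ n ih =>
    rw [Function.iterate_succ_apply, pow_succ, mul_apply]
    exact ih _ _ (h z x hx)

theorem wd_low (a b : CircleDeg1Lift) (la lb : ℤ → ℤ)
    (ha : ∀ (z : ℤ) (x : ℝ), (z : ℝ) / 18 ≤ x → ((la z : ℤ) : ℝ) / 18 ≤ a x)
    (hb : ∀ (z : ℤ) (x : ℝ), (z : ℝ) / 18 ≤ x → ((lb z : ℤ) : ℝ) / 18 ≤ b x)
    (l : List (ℕ × ℕ)) (z : ℤ) (x : ℝ) (hx : (z : ℝ) / 18 ≤ x) :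
    ((l.foldr (fun p z => la^[p.1] (lb^[p.2] z)) z : ℤ) : ℝ) / 18 ≤ wd a b l x := by
  induction l with
  | nil => simpa [wd] using hx
  | cons p l ih =>
    have e : wd a b (p :: l) x = (a ^ p.1) ((b ^ p.2) (wd a b l x)) := by
      simp [wd, List.prod_cons, mul_apply]
    rw [e, List.foldr_cons]
    exact pow_low a la ha _ _ _ (pow_low b lb hb _ _ _ ih)

def TA : List ℤ := [42,105,126,273,280,287,294,357,360,363,366,369,372,375,378,399,406,413]
def TB : List ℤ := [108,111,114,117,120,135,140,145,150,165,180,225,240,315,320,325,330,375]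

theorem TA1 : ∀ r < 17, TA.getD r 0 < TA.getD (r + 1) 0 := by decide
theorem TA2 : TA.getD 17 0 < TA.getD 0 0 + 18 * 21 := by decide
theorem TB1 : ∀ r < 17, TB.getD r 0 < TB.getD (r + 1) 0 := by decide
theorem TB2 : TB.getD 17 0 < TB.getD 0 0 + 18 * 15 := by decide

noncomputable def fa : CircleDeg1Lift :=
  lft (vt TA 21) (vt_strictMono TA 21 (by norm_num) TA1 TA2) (vt_per TA 21 (by norm_num))
noncomputable def fb : CircleDeg1Lift :=
  lft (vt TB 15) (vt_strictMono TB 15 (by norm_num) TB1 TB2) (vt_per TB 15 (by norm_num))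

theorem fa_grid (j : ℤ) : fa ((j : ℝ) / 18) = (tab TA 21 j : ℝ) / (18 * 21) := by
  unfold fa; rw [lft_grid]; unfold vt; norm_num
theorem fb_grid (j : ℤ) : fb ((j : ℝ) / 18) = (tab TB 15 j : ℝ) / (18 * 15) := by
  unfold fb; rw [lft_grid]; unfold vt; norm_num

theorem fa_tau : translationNumber fa = 1 / 4 := by
  have h0 : fa ((0 : ℤ) / 18) = ((2 : ℤ) : ℝ) / 18 := by
    rw [fa_grid, show tab TA 21 0 = 42 by decide]; norm_num
  have h2 : fa (((2 : ℤ) : ℝ) / 18) = ((6 : ℤ) : ℝ) / 18 := by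
    rw [fa_grid, show tab TA 21 2 = 126 by decide]; norm_num
  have h6 : fa (((6 : ℤ) : ℝ) / 18) = ((14 : ℤ) : ℝ) / 18 := by
    rw [fa_grid, show tab TA 21 6 = 294 by decide]; norm_num
  have h14 : fa (((14 : ℤ) : ℝ) / 18) = 1 := by
    rw [fa_grid, show tab TA 21 14 = 378 by decide]; norm_num
  have h : (fa ^ 4) 0 = 0 + ((1 : ℤ) : ℝ) := by
    have e : (fa ^ 4) 0 = fa (fa (fa (fa 0))) := rfl
    rw [e]
    have z : (0 : ℝ) = ((0 : ℤ) : ℝ) / 18 := by norm_num
    nth_rw 1 [z]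
    rw [h0, h2, h6, h14]; norm_num
  have := translationNumber_of_map_pow_eq_add_int fa h (by norm_num)
  rw [this]; norm_num

theorem fb_tau : translationNumber fb = 1 / 5 := by
  have h0 : fb (((4 : ℤ) : ℝ) / 18) = ((8 : ℤ) : ℝ) / 18 := by
    rw [fb_grid, show tab TB 15 4 = 120 by decide]; norm_num
  have h2 : fb (((8 : ℤ) : ℝ) / 18) = ((10 : ℤ) : ℝ) / 18 := by
    rw [fb_grid, show tab TB 15 8 = 150 by decide]; norm_num
  have h6 : fb (((10 : ℤ) : ℝ) / 18) = ((12 : ℤ) : ℝ) / 18 := by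
    rw [fb_grid, show tab TB 15 10 = 180 by decide]; norm_num
  have h14 : fb (((12 : ℤ) : ℝ) / 18) = ((16 : ℤ) : ℝ) / 18 := by
    rw [fb_grid, show tab TB 15 12 = 240 by decide]; norm_num
  have h16 : fb (((16 : ℤ) : ℝ) / 18) = ((4 : ℤ) : ℝ) / 18 + ((1 : ℤ) : ℝ) := by
    rw [fb_grid, show tab TB 15 16 = 330 by decide]; norm_num
  have h : (fb ^ 5) (((4 : ℤ) : ℝ) / 18) = ((4 : ℤ) : ℝ) / 18 + ((1 : ℤ) : ℝ) := by
    have e : (fb ^ 5) (((4 : ℤ) : ℝ) / 18) = fb (fb (fb (fb (fb (((4 : ℤ) : ℝ) / 18))))) := rfl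
    rw [e, h0, h2, h6, h14, h16]
  have := translationNumber_of_map_pow_eq_add_int fb h (by norm_num)
  rw [this]; norm_num

def Lw (z : ℤ) : ℤ := L.foldr (fun p z => (low TA 21)^[p.1] ((low TB 15)^[p.2] z)) z

theorem check2 : 1 + 702 ≤ Lw (Lw 1) := by decide +kernel

theorem lower : 39 / 2 ≤ translationNumber (wd fa fb L) := by
  have ha : ∀ (z : ℤ) (x : ℝ), (z : ℝ) / 18 ≤ x → ((low TA 21 z : ℤ) : ℝ) / 18 ≤ fa x :=
    fun z x hx => lft_low TA 21 (by norm_num) TA1 TA2 z x hx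
  have hb : ∀ (z : ℤ) (x : ℝ), (z : ℝ) / 18 ≤ x → ((low TB 15 z : ℤ) : ℝ) / 18 ≤ fb x :=
    fun z x hx => lft_low TB 15 (by norm_num) TB1 TB2 z x hx
  have s1 := wd_low fa fb _ _ ha hb L 1 (((1 : ℤ) : ℝ) / 18) le_rfl
  have s2 := wd_low fa fb _ _ ha hb L _ _ s1
  have s3 : ((703 : ℤ) : ℝ) / 18 ≤ wd fa fb L (wd fa fb L (((1 : ℤ) : ℝ) / 18)) := by
    refine le_trans ?_ s2
    have := check2
    have h : ((703 : ℤ) : ℝ) ≤ ((Lw (Lw 1) : ℤ) : ℝ) := by exact_mod_cast this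
    exact div_le_div_of_nonneg_right h (by norm_num)
  have s4 : (((1 : ℤ) : ℝ) / 18) + ((39 : ℤ) : ℝ) ≤ ((wd fa fb L) ^ 2) (((1 : ℤ) : ℝ) / 18) := by
    rw [pow_two, mul_apply]
    refine le_trans ?_ s3
    norm_num
  have s5 := le_translationNumber_of_add_int_le _ s4
  rw [translationNumber_pow] at s5
  push_cast at s5
  linarith

/-- There are homeomorphisms `a`, `b` with rotation numbers `1/4`, `1/5` such that the word has
rotation number `39/2`. -/
theorem exists_pair : ∃ a b : CircleDeg1Liftˣ,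
    translationNumber (a : CircleDeg1Lift) = 1 / 4 ∧
    translationNumber (b : CircleDeg1Lift) = 1 / 5 ∧
    translationNumber (wd a b L) = 39 / 2 := by
  obtain ⟨a, ha⟩ : IsUnit fa := lft_isUnit _ _ _
  obtain ⟨b, hb⟩ : IsUnit fb := lft_isUnit _ _ _
  refine ⟨a, b, ?_, ?_, ?_⟩
  · rw [ha]; exact fa_tau
  · rw [hb]; exact fb_tau
  · apply le_antisymm
    · exact upper a b (by rw [ha]; exact fa_tau) (by rw [hb]; exact fb_tau)
    · rw [ha, hb]; exact lower

end Pool.Agent.W28.Slip
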