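import Mathlib

/-! The upper bound in the counterexample to the slippery conjecture. -/

set_option autoImplicit false

namespace Pool.Agent.W28.Slip

open CircleDeg1Lift

/-- The exponents `(α_i, β_i)` of the word. -/
def L : List (ℕ × ℕ) :=
  [(3,1),(1,1),(1,1),(1,1),(1,1),(1,1),(1,1),(1,1),(1,1),(1,1),(1,1),(1,1),(1,1),(1,1),(1,1),
   (1,1),(1,1),(1,1),(3,3)]

/-- The word `a^α_0 b^β_0 ⋯`. -/
def wd (a b : CircleDeg1Lift) (l : List (ℕ × ℕ)) : CircleDeg1Lift :=
  (l.map fun p => a ^ p.1 * b ^ p.2).prod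

/-- index of the first `Y` after `X k` -/
def et (e1 e2 e3 k : ℕ) : ℕ :=
  5 * (k / 4) + (if k % 4 = 0 then 0 else if k % 4 = 1 then e1 else if k % 4 = 2 then e2 else e3)

/-- index of the first `X` after `Y l` -/
def kk (e1 e2 e3 l : ℕ) : ℕ :=
  4 * (l / 5) + 1 + (if e1 ≤ l % 5 then 1 else 0) + (if e2 ≤ l % 5 then 1 else 0)
    + (if e3 ≤ l % 5 then 1 else 0)

def stp (e1 e2 e3 : ℕ) (p : ℕ × ℕ) (l : ℕ) : ℕ := et e1 e2 e3 (kk e1 e2 e3 (l + p.2) + p.1)

def Psi (e1 e2 e3 : ℕ) (l : ℕ) : ℕ := L.foldr (stp e1 e2 e3) l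

theorem check : ∀ e1 < 6, ∀ e2 < 6, ∀ e3 < 6, e1 ≤ e2 → e2 ≤ e3 →
    ∃ l < 5, Psi e1 e2 e3 (Psi e1 e2 e3 l) ≤ l + 195 := by
  decide +kernel

theorem pow_X (a : CircleDeg1Lift) (X : ℕ → ℝ) (h : ∀ k, a (X k) = X (k + 1)) (n k : ℕ) :
    (a ^ n) (X k) = X (k + n) := by
  induction n generalizing k with
  | zero => simp
  | succ n ih => rw [pow_succ, mul_apply, h, ih]; congr 1; ring

theorem per (X : ℕ → ℝ) (n : ℕ) (h : ∀ k, X (k + n) = X k + 1) (t k : ℕ) :
    X (n * t + k) = X k + t := by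
  induction t with
  | zero => simp
  | succ t ih =>
    have : n * (t + 1) + k = (n * t + k) + n := by ring
    rw [this, h, ih]; push_cast; ring

structure Conf (X Y : ℕ → ℝ) (e1 e2 e3 : ℕ) : Prop where
  hX : ∀ k, X (k + 4) = X k + 1
  hY : ∀ l, Y (l + 5) = Y l + 1
  mX : StrictMono X
  mY : StrictMono Y
  h0 : X 0 ≤ Y 0
  h1 : X 1 ≤ Y e1
  h2 : X 2 ≤ Y e2
  h3 : X 3 ≤ Y e3
  g1 : ∀ u < e1, Y u < X 1
  g2 : ∀ u < e2, Y u < X 2
  g3 : ∀ u < e3, Y u < X 3
  g4 : Y 4 < X 4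
  l1 : e1 ≤ e2
  l2 : e2 ≤ e3

theorem Conf.et_le {X Y : ℕ → ℝ} {e1 e2 e3 : ℕ} (h : Conf X Y e1 e2 e3) (k : ℕ) :
    X k ≤ Y (et e1 e2 e3 k) := by
  have hk : X k = X (k % 4) + (k / 4 : ℕ) := by
    have := per X 4 h.hX (k / 4) (k % 4)
    rwa [Nat.div_add_mod] at this
  unfold et
  rw [hk, per Y 5 h.hY]
  have h4 : k % 4 < 4 := Nat.mod_lt _ (by norm_num)
  generalize k % 4 = r at h4 ⊢
  interval_cases r
  · simpa using h.h0
  · simpa using h.h1
  · simpa using h.h2
  · simpa using h.h3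

theorem Conf.le_kk {X Y : ℕ → ℝ} {e1 e2 e3 : ℕ} (h : Conf X Y e1 e2 e3) (l : ℕ) :
    Y l ≤ X (kk e1 e2 e3 l) := by
  have hl : Y l = Y (l % 5) + (l / 5 : ℕ) := by
    have := per Y 5 h.hY (l / 5) (l % 5)
    rwa [Nat.div_add_mod] at this
  have h4 : l % 5 < 5 := Nat.mod_lt _ (by norm_num)
  have key : Y (l % 5) ≤ X (1 + (if e1 ≤ l % 5 then 1 else 0) + (if e2 ≤ l % 5 then 1 else 0)
    + (if e3 ≤ l % 5 then 1 else 0)) := by
    generalize l % 5 = r at h4 ⊢
    have l1 := h.l1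
    have l2 := h.l2
    by_cases c1 : e1 ≤ r
    · by_cases c2 : e2 ≤ r
      · by_cases c3 : e3 ≤ r
        · simp only [c1, c2, c3, if_true]
          have : Y r ≤ Y 4 := h.mY.monotone (by omega)
          have := h.g4
          norm_num
          linarith
        · simp only [c1, c2, c3, if_true, if_false]
          exact (h.g3 r (by omega)).le
      · have c3 : ¬ e3 ≤ r := by omega
        simp only [c1, c2, c3, if_true, if_false]
        exact (h.g2 r (by omega)).le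
    · have c2 : ¬ e2 ≤ r := by omega
      have c3 : ¬ e3 ≤ r := by omega
      simp only [c1, c2, c3, if_false]
      exact (h.g1 r (by omega)).le
  have : kk e1 e2 e3 l = 4 * (l / 5) + (1 + (if e1 ≤ l % 5 then 1 else 0)
    + (if e2 ≤ l % 5 then 1 else 0) + (if e3 ≤ l % 5 then 1 else 0)) := by
    unfold kk; ring
  rw [this, hl, per X 4 h.hX]
  linarith

theorem Conf.wd_le {X Y : ℕ → ℝ} {e1 e2 e3 : ℕ} (h : Conf X Y e1 e2 e3) (a b : CircleDeg1Lift)
    (ha : ∀ k, a (X k) = X (k + 1)) (hb : ∀ k, b (Y k) = Y (k + 1)) (l : List (ℕ × ℕ))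
    (x : ℝ) (n : ℕ) (hx : x ≤ Y n) : wd a b l x ≤ Y (l.foldr (stp e1 e2 e3) n) := by
  induction l with
  | nil => simpa [wd] using hx
  | cons p l ih =>
    have e : wd a b (p :: l) x = (a ^ p.1) ((b ^ p.2) (wd a b l x)) := by
      simp [wd, List.prod_cons, mul_apply]
    rw [e, List.foldr_cons]
    set N := l.foldr (stp e1 e2 e3) n with hN
    have s1 : (b ^ p.2) (wd a b l x) ≤ Y (N + p.2) := by
      rw [← pow_X b Y hb]
      exact (b ^ p.2).monotone ih
    have s2 : Y (N + p.2) ≤ X (kk e1 e2 e3 (N + p.2)) := h.le_kk _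
    have s3 : (a ^ p.1) ((b ^ p.2) (wd a b l x)) ≤ X (kk e1 e2 e3 (N + p.2) + p.1) := by
      rw [← pow_X a X ha]
      exact (a ^ p.1).monotone (s1.trans s2)
    exact s3.trans (h.et_le _)

theorem Conf.main {X Y : ℕ → ℝ} {e1 e2 e3 : ℕ} (h : Conf X Y e1 e2 e3) (he : e3 < 6)
    (a b : CircleDeg1Lift)
    (ha : ∀ k, a (X k) = X (k + 1)) (hb : ∀ k, b (Y k) = Y (k + 1)) :
    translationNumber (wd a b L) ≤ 39 / 2 := by
  obtain ⟨l, hl5, hl⟩ := check e1 (by have := h.l1; have := h.l2; omega) e2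
    (by have := h.l2; omega) e3 he h.l1 h.l2
  have s1 : wd a b L (Y l) ≤ Y (Psi e1 e2 e3 l) := h.wd_le a b ha hb L _ _ le_rfl
  have s2 : wd a b L (wd a b L (Y l)) ≤ Y (Psi e1 e2 e3 (Psi e1 e2 e3 l)) :=
    h.wd_le a b ha hb L _ _ s1
  have s3 : Y (Psi e1 e2 e3 (Psi e1 e2 e3 l)) ≤ Y l + 39 := by
    have := per Y 5 h.hY 39 l
    norm_num at this
    rw [← this]
    exact h.mY.monotone (by omega)
  have s4 : ((wd a b L) ^ 2) (Y l) ≤ Y l + ((39 : ℤ) : ℝ) := by
    rw [pow_two, mul_apply]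
    push_cast
    linarith
  have s5 := translationNumber_le_of_le_add_int _ s4
  rw [translationNumber_pow] at s5
  push_cast at s5
  linarith

/-- a periodic orbit of a homeomorphism with translation number `1/n` -/
theorem exists_orbit (a : CircleDeg1Liftˣ) (n : ℕ) (hn : 0 < n)
    (h : translationNumber (a : CircleDeg1Lift) = 1 / (n : ℝ)) :
    ∃ x : ℝ, ((a : CircleDeg1Lift) ^ n) x = x + 1 := by
  have hc : Continuous (a : CircleDeg1Lift) := by
    have := (toOrderIso a).continuous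
    rwa [coe_toOrderIso] at this
  have := (translationNumber_eq_rat_iff (a : CircleDeg1Lift) hc (m := 1) hn).1 (by
    rw [h]; norm_num)
  obtain ⟨x, hx⟩ := this
  exact ⟨x, by simpa using hx⟩

theorem orbit_strictMono (a : CircleDeg1Lift) (n : ℕ) (hn : 0 < n)
    (h : translationNumber a = 1 / (n : ℝ)) (x : ℝ) :
    StrictMono (fun k : ℕ => (a ^ k) x) := by
  apply strictMono_nat_of_lt_succ
  intro k
  have h0 : ((0 : ℤ) : ℝ) < translationNumber a := by
    rw [h]; push_cast; positivity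
  have := lt_map_of_int_lt_translationNumber a h0 ((a ^ k) x)
  rw [pow_succ', mul_apply]
  simpa using this

theorem upper (a b : CircleDeg1Liftˣ) (ha : translationNumber (a : CircleDeg1Lift) = 1 / 4)
    (hb : translationNumber (b : CircleDeg1Lift) = 1 / 5) :
    translationNumber (wd a b L) ≤ 39 / 2 := by
  obtain ⟨x0, hx0⟩ := exists_orbit a 4 (by norm_num) (by rw [ha]; norm_num)
  obtain ⟨y0, hy0⟩ := exists_orbit b 5 (by norm_num) (by rw [hb]; norm_num)
  -- move y0 into [x0 - 1, x0)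
  obtain ⟨n, hn1, hn2⟩ : ∃ n : ℤ, y0 + n < x0 ∧ x0 ≤ y0 + n + 1 := by
    refine ⟨⌈x0 - y0⌉ - 1, ?_, ?_⟩
    · have := Int.ceil_lt_add_one (x0 - y0)
      push_cast; linarith
    · have := Int.le_ceil (x0 - y0)
      push_cast; linarith
  set z0 : ℝ := y0 + n with hz0
  have hz5 : ((b : CircleDeg1Lift) ^ 5) z0 = z0 + 1 := by
    rw [hz0, map_add_int, hy0]; ring
  set Z : ℕ → ℝ := fun k => ((b : CircleDeg1Lift) ^ k) z0 with hZ
  have mZ : StrictMono Z := orbit_strictMono _ 5 (by norm_num) (by rw [hb]; norm_num) _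
  have Z0 : Z 0 = z0 := by simp [hZ]
  have Zper : ∀ k, Z (k + 5) = Z k + 1 := by
    intro k
    have : Z (k + 5) = ((b : CircleDeg1Lift) ^ k) (((b : CircleDeg1Lift) ^ 5) z0) := by
      simp only [hZ]; rw [pow_add, mul_apply]
    rw [this, hz5, map_add_one]
  have Zs : ∀ k, (b : CircleDeg1Lift) (Z k) = Z (k + 1) := by
    intro k
    simp only [hZ]
    rw [pow_succ', mul_apply]
  set X : ℕ → ℝ := fun k => ((a : CircleDeg1Lift) ^ k) x0 with hX
  have mX : StrictMono X := orbit_strictMono _ 4 (by norm_num) (by rw [ha]; norm_num) _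
  have X0 : X 0 = x0 := by simp [hX]
  have Xper : ∀ k, X (k + 4) = X k + 1 := by
    intro k
    have : X (k + 4) = ((a : CircleDeg1Lift) ^ k) (((a : CircleDeg1Lift) ^ 4) x0) := by
      simp only [hX]; rw [pow_add, mul_apply]
    rw [this, hx0, map_add_one]
  have Xs : ∀ k, (a : CircleDeg1Lift) (X k) = X (k + 1) := by
    intro k
    simp only [hX]
    rw [pow_succ', mul_apply]
  have hex : ∃ l, X 0 ≤ Z l := ⟨5, by
    have := Zper 0
    rw [Z0] at this; rw [X0]; norm_num at this; rw [this]; linarith⟩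
  classical
  set l0 := Nat.find hex with hl0
  have hl0a : X 0 ≤ Z l0 := Nat.find_spec hex
  have hl0pos : 0 < l0 := by
    rcases Nat.eq_zero_or_pos l0 with h | h
    · rw [h, Z0, X0] at hl0a; linarith
    · exact h
  have hl0b : Z (l0 - 1) < X 0 := by
    have := Nat.find_min hex (m := l0 - 1) (by omega)
    push Not at this
    exact this
  set Y : ℕ → ℝ := fun k => Z (l0 + k) with hY
  have mY : StrictMono Y := fun i j hij => mZ (by omega)
  have Yper : ∀ k, Y (k + 5) = Y k + 1 := fun k => by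
    simp only [hY]; rw [← Zper]; congr 1
  have Ys : ∀ k, (b : CircleDeg1Lift) (Y k) = Y (k + 1) := fun k => by
    simp only [hY]; rw [Zs]; congr 1
  have Y5 : ∀ i ≤ 4, X i ≤ Y 5 := by
    intro i hi
    have h1 : X i ≤ X 4 := mX.monotone hi
    have h2 : X 4 = X 0 + 1 := by simpa using Xper 0
    have h3 : Y 5 = Y 0 + 1 := by simpa using Yper 0
    have h4 : X 0 ≤ Y 0 := by simpa [hY] using hl0a
    linarith
  have f1 : ∃ u, X 1 ≤ Y u := ⟨5, Y5 1 (by norm_num)⟩
  have f2 : ∃ u, X 2 ≤ Y u := ⟨5, Y5 2 (by norm_num)⟩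
  have f3 : ∃ u, X 3 ≤ Y u := ⟨5, Y5 3 (by norm_num)⟩
  have hconf : Conf X Y (Nat.find f1) (Nat.find f2) (Nat.find f3) := by
    refine ⟨Xper, Yper, mX, mY, ?_, Nat.find_spec f1, Nat.find_spec f2, Nat.find_spec f3,
      ?_, ?_, ?_, ?_, ?_, ?_⟩
    · simpa [hY] using hl0a
    · intro u hu; have := Nat.find_min f1 hu; push Not at this; exact this
    · intro u hu; have := Nat.find_min f2 hu; push Not at this; exact this
    · intro u hu; have := Nat.find_min f3 hu; push Not at this; exact this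
    · have h2 : X 4 = X 0 + 1 := by simpa using Xper 0
      have h3 : Y 4 = Z (l0 - 1) + 1 := by
        simp only [hY]; rw [← Zper]; congr 1; omega
      rw [h2, h3]; linarith
    · exact Nat.find_min' f1 ((mX.monotone (by norm_num)).trans (Nat.find_spec f2))
    · exact Nat.find_min' f2 ((mX.monotone (by norm_num)).trans (Nat.find_spec f3))
  have he : Nat.find f3 < 6 := by
    have := Nat.find_min' f3 (Y5 3 (by norm_num))
    omega
  exact hconf.main he a b Xs Ys

end Pool.Agent.W28.Slip
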